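import Pool.Agent.Q63.Tracking.Unique

/-!
Problem MP_93c926_an, question Q2: the cost of `ε`-approximate tracking is not bounded by
`C exp (C ε^(-1/2))`. For the target `w(t) = t` it is at least
`(2 ε² / L) (exp (L² / (8 ε)) - 1)` as soon as `2 ε < T`.
-/

open Set
open scoped ENNReal NNReal

namespace Pool.Agent.Results.MP_93c926_an.TrackingCostLower

open Pool.Agent.Q63.Tracking

theorem result :
    (¬ ∀ L T : ℝ, 0 < L → 0 < T → ∀ w : ℝ → ℝ,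
      (∃ K : ℝ≥0, LipschitzOnWith K w (Icc 0 T)) → w 0 = 0 →
      ∃ C : ℝ, 0 < C ∧ ∀ ε : ℝ, 0 < ε →
        cost L T w ε ≤ ENNReal.ofReal (C * Real.exp (C * ε ^ (-(1 / 2) : ℝ)))) ∧
    (∀ L T : ℝ, 0 < L → 0 < T → ∀ C : ℝ, ∃ ε : ℝ, 0 < ε ∧
      ENNReal.ofReal (C * Real.exp (C * ε ^ (-(1 / 2) : ℝ))) < cost L T (fun t => t) ε) ∧
    (∀ L T ε : ℝ, 0 < L → 0 < ε → 2 * ε < T →
      ENNReal.ofReal (2 * ε ^ 2 / L * (Real.exp (L ^ 2 / (8 * ε)) - 1)) ≤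
        cost L T (fun t => t) ε) ∧
    (∀ L T : ℝ, 0 < L → ∀ (v : C(Icc (0 : ℝ) T, ℝ)) (y y' : ℝ → ℝ → ℝ),
      IsSolution L T v y → IsSolution L T v y' →
      ∀ t ∈ Icc 0 T, ∀ x ∈ Icc 0 L, (t, x) ≠ (0, L) → y t x = y' t x) := by
  have h3 : ∀ L T ε : ℝ, 0 < L → 0 < ε → 2 * ε < T →
      ENNReal.ofReal (2 * ε ^ 2 / L * (Real.exp (L ^ 2 / (8 * ε)) - 1)) ≤
        cost L T (fun t => t) ε := fun L T ε hL hε hT => cost_ge hL hε hT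
  have h2 : ∀ L T : ℝ, 0 < L → 0 < T → ∀ C : ℝ, ∃ ε : ℝ, 0 < ε ∧
      ENNReal.ofReal (C * Real.exp (C * ε ^ (-(1 / 2) : ℝ))) < cost L T (fun t => t) ε := by
    intro L T hL hT C
    obtain ⟨ε, hε, hεT, h⟩ := exists_beats hL hT C
    refine ⟨ε, hε, lt_of_lt_of_le ?_ (h3 L T ε hL hε hεT)⟩
    refine (ENNReal.ofReal_lt_ofReal_iff ?_).2 h
    have h1 : 0 < Real.exp (L ^ 2 / (8 * ε)) - 1 := by
      have := Real.add_one_lt_exp (x := L ^ 2 / (8 * ε)) (by positivity)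
      have h4 : 0 < L ^ 2 / (8 * ε) := by positivity
      linarith
    positivity
  refine ⟨fun h => ?_, h2, h3, fun L T hL v y y' hy hy' t ht x hx hne =>
    hy.unique hL hy' ht hx hne⟩
  obtain ⟨C, hC, hb⟩ := h 1 1 one_pos one_pos (fun t => t)
    ⟨1, LipschitzWith.id.lipschitzOnWith⟩ rfl
  obtain ⟨ε, hε, hlt⟩ := h2 1 1 one_pos one_pos C
  exact absurd (hb ε hε) (not_le.2 hlt)

end Pool.Agent.Results.MP_93c926_an.TrackingCostLower
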